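import Mathlib

/-!
# Polynomials without multiple roots (project HR of helper204, task F7)
-/

set_option autoImplicit false

namespace Pool.Agent.N297.HR

open Polynomial

section

variable {K V : Type} [Field K] [CharZero K] [AddCommGroup V] [Module K V]

/-- rational polynomials at an endomorphism -/
noncomputable def phi (F : Module.End K V) : ℚ[X] →+* Module.End K V :=
  (aeval F : K[X] →ₐ[K] Module.End K V).toRingHom.comp (mapRingHom (algebraMap ℚ K))

theorem phi_apply (F : Module.End K V) (G : ℚ[X]) :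
    phi F G = aeval F (G.map (algebraMap ℚ K)) := rfl

theorem phi_int (F : Module.End K V) (G : ℤ[X]) :
    phi F (G.map (algebraMap ℤ ℚ)) = aeval F G := by
  rw [phi_apply, Polynomial.map_map, ← IsScalarTower.algebraMap_eq ℤ ℚ K, aeval_map_algebraMap]

theorem phi_C (F : Module.End K V) (c : ℚ) :
    phi F (C c) = algebraMap K (Module.End K V) (algebraMap ℚ K c) := by
  rw [phi_apply, Polynomial.map_C, aeval_C]

theorem phi_expand (F : Module.End K V) (G : ℚ[X]) (m : ℕ) :
    phi F (expand ℚ m G) = phi (F ^ m) G := by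
  rw [phi_apply, phi_apply, map_expand, expand_aeval]

theorem f7' (ι : Type) [Module.Finite K V] (U : ι → Submodule K V) (F : Module.End K V)
    (Q : ι → Polynomial ℤ) (m : ℕ)
    (hU : (⨆ i, U i) = ⊤) (hm : 0 < m) (hmon : ∀ i, (Q i).Monic)
    (hroot : ∀ i, ∀ y : ℂ, Polynomial.aeval y (Q i) = 0 → y ≠ 0)
    (hkill : ∀ i, ∀ x ∈ U i, Polynomial.aeval F (Q i) x = 0)
    (hnil : ∀ R : Polynomial ℤ, IsNilpotent (Polynomial.aeval (F ^ m) R) →
      Polynomial.aeval (F ^ m) R = 0) (i : ι) :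
    ∃ Q' : Polynomial ℤ, Q'.Monic ∧ Squarefree (Q'.map (Int.castRingHom ℚ)) ∧
      (∀ y : ℂ, Polynomial.aeval y Q' = 0 → Polynomial.aeval y (Q i) = 0) ∧
      ∀ x ∈ U i, Polynomial.aeval F Q' x = 0 := by
  classical
  -- an integral polynomial of `F`
  obtain ⟨s, hs⟩ : ∃ s : Finset ι, (⊤ : Submodule K V) ≤ ⨆ i ∈ s, U i := by
    have h1 : IsCompactElement (⊤ : Submodule K V) :=
      (Submodule.fg_iff_compact ⊤).1 Module.Finite.fg_top
    exact CompleteLattice.IsCompactElement.exists_finset_of_le_iSup _ h1 _ hU.ge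
  have hP : aeval F (∏ i ∈ s, Q i) = 0 := by
    have h1 : (⨆ i ∈ s, U i) ≤ LinearMap.ker (aeval F (∏ i ∈ s, Q i)) := by
      refine iSup₂_le fun i hi x hx => ?_
      rw [LinearMap.mem_ker, ← Finset.prod_erase_mul s Q hi, map_mul, Module.End.mul_apply,
        hkill i x hx, map_zero]
    ext x
    exact h1 (hs (Submodule.mem_top (x := x)))
  have hF : IsIntegral ℤ F :=
    ⟨∏ i ∈ s, Q i, monic_prod_of_monic _ _ fun i _ => hmon i, by rw [← aeval_def]; exact hP⟩
  obtain ⟨μ, hμ1, hμ2⟩ := hF.pow m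
  rw [← aeval_def] at hμ2
  have hμ0 : μ.map (algebraMap ℤ ℚ) ≠ 0 := (hμ1.map _).ne_zero
  obtain ⟨R, n, hRs, -, S, hRn⟩ := exists_squarefree_dvd_pow_of_ne_zero hμ0
  -- the relation for `R`
  have hR0 : phi (F ^ m) R = 0 := by
    obtain ⟨b, hbm, hb⟩ := IsLocalization.integerNormalization_spec (nonZeroDivisors ℤ) R
    have hb0 : (b : ℤ) ≠ 0 := nonZeroDivisors.ne_zero hbm
    have h1 : aeval (F ^ m) (IsLocalization.integerNormalization (nonZeroDivisors ℤ) R) =
        ((b : ℤ) : K) • phi (F ^ m) R := by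
      rw [← phi_int, hb, ← Int.cast_smul_eq_zsmul ℚ, smul_eq_C_mul, map_mul, phi_C]
      rw [map_intCast, ← Algebra.smul_def]
    have h2 : IsNilpotent (phi (F ^ m) R) := by
      refine ⟨n, ?_⟩
      rw [← map_pow, hRn, map_mul, phi_int, hμ2, zero_mul]
    have h3 := hnil (IsLocalization.integerNormalization (nonZeroDivisors ℤ) R) (by
      rw [h1]
      exact h2.smul _)
    rw [h1] at h3
    exact (smul_eq_zero.1 h3).resolve_left (by exact_mod_cast hb0)
  obtain ⟨H, hH⟩ : ∃ H, H = expand ℚ m R := ⟨_, rfl⟩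
  have hH0 : phi F H = 0 := by
    rw [hH, phi_expand, hR0]
  -- the greatest common divisor
  obtain ⟨q, hq⟩ : ∃ q, q = (Q i).map (algebraMap ℤ ℚ) := ⟨_, rfl⟩
  have hq0 : q ≠ 0 := by
    rw [hq]
    exact ((hmon i).map _).ne_zero
  obtain ⟨g, hg⟩ : ∃ g, g = EuclideanDomain.gcd q H := ⟨_, rfl⟩
  have hgq : g ∣ q := by
    rw [hg]
    exact EuclideanDomain.gcd_dvd_left _ _
  have hgH : g ∣ H := by
    rw [hg]
    exact EuclideanDomain.gcd_dvd_right _ _
  have hg0 : g ≠ 0 := fun h => hq0 (by rw [h] at hgq; exact zero_dvd_iff.1 hgq)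
  have hgU : ∀ x ∈ U i, phi F g x = 0 := by
    intro x hx
    have h1 : g = EuclideanDomain.gcdA q H * q + EuclideanDomain.gcdB q H * H := by
      rw [hg, EuclideanDomain.gcd_eq_gcd_ab]
      ring
    rw [h1, map_add, map_mul, map_mul, hH0, mul_zero, add_zero, Module.End.mul_apply, hq, phi_int,
      hkill i x hx, map_zero]
  -- no multiple roots
  have hev : ∀ (y : ℂ) (G : ℤ[X]), aeval y (G.map (algebraMap ℤ ℚ)) = aeval y G := fun y G =>
    aeval_map_algebraMap ℚ y G
  have hgs : Squarefree g := by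
    intro x hx
    by_contra hxu
    have hx0 : x ≠ 0 := by
      rintro rfl
      rw [zero_mul, zero_dvd_iff] at hx
      exact hg0 hx
    have hxd : x.degree ≠ 0 := fun h => hxu (Polynomial.isUnit_iff_degree_eq_zero.2 h)
    obtain ⟨z, hz⟩ := IsAlgClosed.exists_aeval_eq_zero ℂ x hxd
    have hz0 : z ≠ 0 := by
      obtain ⟨y1, hy1⟩ := hx.trans hgq
      apply hroot i z
      rw [← hev, ← hq, hy1, map_mul, map_mul, hz, zero_mul, zero_mul]
    obtain ⟨w, hw⟩ := hx.trans hgH
    have h1 : aeval (z ^ m) R = 0 := by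
      rw [← expand_aeval, ← hH, hw, map_mul, map_mul, hz, zero_mul, zero_mul]
    have h2 : aeval (z ^ m) (derivative R) = 0 := by
      have h3 : aeval z (derivative H) = 0 := by
        rw [hw, derivative_mul, derivative_mul, map_add, map_mul, map_mul, map_add, map_mul,
          map_mul, map_mul, hz]
        ring
      rw [hH, derivative_expand, map_mul, expand_aeval, map_mul, map_pow, aeval_X, map_natCast,
        mul_eq_zero, mul_eq_zero] at h3
      rcases h3 with h3 | h3 | h3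
      · exact h3
      · exact absurd h3 (by exact_mod_cast hm.ne')
      · exact absurd h3 (pow_ne_zero _ hz0)
    obtain ⟨a, b, hab⟩ := PerfectField.separable_iff_squarefree.2 hRs
    have h4 := congrArg (aeval (z ^ m)) hab
    rw [map_add, map_mul, map_mul, h1, h2, mul_zero, mul_zero, add_zero, map_one] at h4
    exact zero_ne_one h4
  -- the integral polynomial
  have hgq' : g ∣ (Q i).map (algebraMap ℤ ℚ) := by
    rw [← hq]
    exact hgq
  obtain ⟨Q', hQ'⟩ := IsIntegrallyClosed.eq_map_mul_C_of_dvd ℚ (hmon i) hgq'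
  have hlc : g.leadingCoeff ≠ 0 := leadingCoeff_ne_zero.2 hg0
  have hQg : Q'.map (algebraMap ℤ ℚ) = C (g.leadingCoeff)⁻¹ * g := by
    nth_rewrite 2 [← hQ']
    rw [mul_comm, mul_assoc, ← C_mul, mul_inv_cancel₀ hlc, C_1, mul_one]
  have hQdvd : Q'.map (algebraMap ℤ ℚ) ∣ g := ⟨_, hQ'.symm⟩
  have hQmon : (Q'.map (algebraMap ℤ ℚ)).Monic := by
    rw [Monic, hQg, leadingCoeff_mul, leadingCoeff_C, inv_mul_cancel₀ hlc]
  refine ⟨Q', monic_of_injective (algebraMap ℤ ℚ).injective_int hQmon, ?_, ?_, ?_⟩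
  · exact hgs.squarefree_of_dvd hQdvd
  · intro y hy
    obtain ⟨w, hw⟩ := hQdvd.trans hgq'
    rw [← hev, hw, map_mul, hev, hy, zero_mul]
  · intro x hx
    rw [← phi_int, hQg, map_mul, Module.End.mul_apply, hgU x hx, map_zero]

end

end Pool.Agent.N297.HR
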