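import Pool.Agent.N204.HR.Stm3
import Pool.Agent.N297.HR.F7A

/-!
# Project HR of helper204, task F7
-/

set_option autoImplicit false

namespace Pool.Agent.N297.HR

/-- **Task F7.** -/
theorem f7 : Pool.Agent.N204.HR.S_F7 := by
  intro K V ι _ _ _ _ _ U F Q m hU hm hmon hroot _ hkill hnil i
  exact f7' ι U F Q m hU hm hmon hroot hkill hnil i

end Pool.Agent.N297.HR
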