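import Pool.Agent.N204.HR.Stm5
import Pool.Agent.N505.HR.GD
import Pool.Agent.N79.HR.F2
import Pool.Agent.N134.HR.F1

/-!
# The generated classes have the properties of the classes of the algebraic cycles
-/

set_option linter.unusedSectionVars false

open CategoryTheory AlgebraicGeometry TensorProduct

universe u

namespace Pool.Agent.N297.HR

open Module
open Pool.Agent.H914 Pool.Agent.H914.VarClass Pool.Agent.H914.VarClass.Obj
  Pool.Agent.H914.WeilCohomology
open Pool.Agent.Y133.Half (pw)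
open Pool.Agent.Y121.AHS
open Pool.Agent.N996.BP (IsCoordinateMap RForm)
open Pool.Agent.N204.RD.Raw (Coh IsLin IsLinear IsSub InSpan coh ap vzero vadd vsmul)
open Pool.Agent.N204.HR Pool.Agent.N204.HR.Raw
open Pool.Agent.N211.BT (mulB mapB trB nondegE emL_zero mapL_deg)
open Pool.Agent.N505.HR (tr_ne deg_ind gd)
open Pool.Agent.N79.HR (Lm Lm_mul1 Lm_pull1 q_ne push_one trmul_smul f2)

variable {k : Type u} [Field k] {𝒱 : VarClass k} {ops : CycleOps 𝒱}

section General

variable {W : WeilCohomology.{u, 0} ops} {Y : 𝒱.Obj} {E : Type} [Field E] [Algebra W.K E]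

/-- The cohomology vanishes above twice the dimension. -/
lemma deg_big {x : HL W E Y} {i : ℕ} (hx : IsDeg i x) (h : 2 * Y.dim < i) : x = 0 := by
  have h2 : ∀ y : (baseW W E).H Y, y ∈ (baseW W E).gr Y i → y = 0 := by
    intro y hy
    rw [(baseW W E).gr_eq_bot Y i h] at hy
    exact (Submodule.mem_bot _).1 hy
  exact h2 x hx

end General

variable {T : HodgeTheory ops} {X : 𝒱.Obj} {ψ : RForm T.W X} {E : Type} [Field E]
  [Algebra T.W.K E] {q : ℕ} {φ : ∀ n, (coh T E ψ).H n → (coh T E ψ).H n}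
  {S : ∀ n : ℕ, ℕ → Set (T.W.H (pw X n))}

/-- The push-forward of a class of small codimension is zero. -/
lemma push_zero {n m j : ℕ} {g : pw X m ⟶ pw X n} {x : HL T.W E (pw X m)}
    {y : HL T.W E (pw X n)} (hx : IsDeg (2 * j) x)
    (hxy : ∀ z, trL (mulL z y) = trL (mulL (mapL g z) x))
    (hlt : j + (pw X n).dim < (pw X m).dim) : y = 0 := by
  apply nondegE
  intro z
  refine deg_ind (p := fun z => trL (mulL z y) = 0) (fun i a ha => ?_) (fun a b ha hb => ?_) z
  · rw [hxy]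
    by_cases hi : i + 2 * j = 2 * (pw X m).dim
    · have h0 : a = 0 := deg_big ha (by omega)
      have h1 : trB T.W E _ (mulB T.W E _ (mapB E g a) x) = 0 := by
        rw [h0, map_zero, map_zero, LinearMap.zero_apply, map_zero]
      exact h1
    · exact tr_ne (mapL_deg g ha) hx hi
  · have h1 : trB T.W E _ (mulB T.W E _ (a + b) y) =
        trB T.W E _ (mulB T.W E _ a y) + trB T.W E _ (mulB T.W E _ b y) := by
      rw [map_add, LinearMap.add_apply, map_add]
    have h2 : trB T.W E _ (mulB T.W E _ a y) = 0 := ha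
    have h3 : trB T.W E _ (mulB T.W E _ b y) = 0 := hb
    rw [h2, h3, add_zero] at h1
    exact h1

/-- The Frobenius of the last factor commutes with the Frobenius. -/
lemma com_frob {h : IsFrobenius (coh T E ψ) q φ (Raw.ext T E S)} {n : ℕ}
    {g : pw X (n + 1) ⟶ pw X n} (hg : IsCoordinateMap g) {g' : pw X (n + 1) ⟶ pw X 0}
    (hg' : IsCoordinateMap g') (t : Module.End E (HL T.W E (pw X (n + 1))))
    (hsp : ∀ N : Submodule E (HL T.W E (pw X (n + 1))),
      (∀ a b, mulL (mapL g a) (mapL g' b) ∈ N) → ∀ z, z ∈ N)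
    (ht : ∀ a b, t (mulL (mapL g a) (mapL g' b)) = mulL (mapL g a) (mapL g' (Lm h 0 b)))
    (z : HL T.W E (pw X (n + 1))) : t (Lm h (n + 1) z) = Lm h (n + 1) (t z) := by
  have hz := hsp (LinearMap.ker (t * Lm h (n + 1) - Lm h (n + 1) * t)) (fun a b => by
    rw [LinearMap.mem_ker, LinearMap.sub_apply, Module.End.mul_apply, Module.End.mul_apply,
      Lm_mul1, Lm_pull1 h g hg, Lm_pull1 h g' hg', ht, ht, Lm_mul1, Lm_pull1 h g hg,
      Lm_pull1 h g' hg', sub_self]) z
  rw [LinearMap.mem_ker, LinearMap.sub_apply, Module.End.mul_apply, Module.End.mul_apply,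
    sub_eq_zero] at hz
  exact hz

/-- The multiple of a push-forward. -/
lemma push_frob (h1 : S_F1.{u}) (h : IsFrobenius (coh T E ψ) q φ (Raw.ext T E S)) {n m : ℕ}
    {g : pw X m ⟶ pw X n} (hg : IsCoordinateMap g) {x : HL T.W E (pw X m)}
    {y : HL T.W E (pw X n)} (hxy : ∀ z, trL (mulL z y) = trL (mulL (mapL g z) x)) {c d : E}
    (hc : c = (q : E) ^ (pw X m).dim) (hd : d = (q : E) ^ (pw X n).dim)
    (z : HL T.W E (pw X n)) :
    trL (mulL z (c • Lm h n y)) = trL (mulL (mapL g z) (d • Lm h m x)) := by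
  have h2 := push_one h1 h hg hxy z
  rw [trmul_smul, trmul_smul, hc, hd]
  exact h2

/-- The generated classes are stable under the Frobenius. -/
theorem gen_frob (h1 : S_F1.{u}) (h : IsFrobenius (coh T E ψ) q φ (Raw.ext T E S)) {n j : ℕ}
    {x : (coh T E ψ).H n} (hx : Gen (coh T E ψ) (φ 0) (Raw.ext T E S) n j x) :
    Gen (coh T E ψ) (φ 0) (Raw.ext T E S) n j (φ n x) := by
  have hC : CharZero E := (baseW T.W E).charZero
  have hcast : ∀ a : ℕ, (((q : ℚ) ^ a : ℚ) : E) = (q : E) ^ a := fun a => by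
    rw [Rat.cast_pow, Rat.cast_natCast]
  have hq0 : (q : ℚ) ≠ 0 := Nat.cast_ne_zero.2 h.q_pos.ne'
  induction hx with
  | base hx =>
    obtain ⟨y, hy, hxy⟩ := h.conj _ _ _ hx
    rw [hxy, ← hcast]
    exact Gen.smul _ (Gen.base hy)
  | add _ _ hx hy =>
    rw [(h.lin _).1]
    exact Gen.add hx hy
  | smul r _ hx =>
    rw [(h.lin _).2]
    exact Gen.smul r hx
  | mul _ _ hx hy =>
    rw [h.mul]
    exact Gen.mul hx hy
  | pull hf _ hx =>
    rw [h.pull _ _ _ hf]
    exact Gen.pull hf hx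
  | @push n m i j x y f hf _ htr hij hx =>
    obtain ⟨g, hg, rfl⟩ := hf
    have h2 : Gen (coh T E ψ) (φ 0) (Raw.ext T E S) m j
        ((coh T E ψ).smul m (((q : ℚ) ^ (pw X n).dim : ℚ) : E) (φ m x)) := Gen.smul _ hx
    have h3 : Gen (coh T E ψ) (φ 0) (Raw.ext T E S) n i
        ((coh T E ψ).smul n (((q : ℚ) ^ (pw X m).dim : ℚ) : E) (φ n y)) :=
      Gen.push ⟨g, hg, rfl⟩ h2
        (fun z => push_frob h1 h hg htr (hcast _) (hcast _) z) hij
    have h4 := Gen.smul (((q : ℚ) ^ (pw X m).dim)⁻¹) h3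
    have h5 : (coh T E ψ).smul n ((((q : ℚ) ^ (pw X m).dim)⁻¹ : ℚ) : E)
        ((coh T E ψ).smul n (((q : ℚ) ^ (pw X m).dim : ℚ) : E) (φ n y)) = φ n y := by
      have h6 : ∀ w : HL T.W E (pw X n), ((((q : ℚ) ^ (pw X m).dim)⁻¹ : ℚ) : E) •
          ((((q : ℚ) ^ (pw X m).dim : ℚ) : E) • w) = w := by
        intro w
        rw [smul_smul, ← Rat.cast_mul, inv_mul_cancel₀ (pow_ne_zero _ hq0), Rat.cast_one,
          one_smul]
      exact h6 (φ n y)
    rw [h5] at h4
    exact h4
  | @frob n j x p q' t hp hq' hsp ht htpq _ hx =>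
    obtain ⟨g, hg, rfl⟩ := hp
    obtain ⟨g', hg', rfl⟩ := hq'
    let t' : Module.End E (HL T.W E (pw X (n + 1))) :=
      { toFun := t
        map_add' := ht.1
        map_smul' := ht.2 }
    have hcom : t (φ (n + 1) x) = φ (n + 1) (t x) :=
      com_frob (h := h) hg hg' t' (fun N hN z => hsp z {z | z ∈ N} ⟨N.zero_mem,
        fun x hx y hy => N.add_mem hx hy, fun c x hx => N.smul_mem c hx⟩ (by
          rintro _ ⟨a, b, rfl⟩
          exact hN a b)) htpq x
    rw [← hcom]
    exact Gen.frob ⟨g, hg, rfl⟩ ⟨g', hg', rfl⟩ hsp ht htpq hx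

/-- The classes of the algebraic cycles. -/
def Scl (T : HodgeTheory ops) (X : 𝒱.Obj) (n j : ℕ) : Set (T.W.H (pw X n)) :=
  {c | ∃ z, (pw X n).IsCyc j z ∧ c = ap (T.W.cl (pw X n)) z}

lemma cyc_eq (T : HodgeTheory ops) (E : Type) [Field E] [Algebra T.W.K E] (ψ : RForm T.W X) :
    (coh T E ψ).cyc = Raw.ext T E (Scl T X) := by
  funext n j
  apply Set.ext
  intro x
  constructor
  · rintro ⟨z, hz, rfl⟩
    exact ⟨_, ⟨z, hz, rfl⟩, rfl⟩
  · rintro ⟨c, ⟨z, hz, rfl⟩, rfl⟩
    exact ⟨z, hz, rfl⟩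

/-- Zero is the class of a cycle. -/
lemma zero_cyc (n j : ℕ) : (0 : HL T.W E (pw X n)) ∈ Raw.ext T E (Scl T X) n j :=
  ⟨0, ⟨0, Pool.Agent.H914.SmVar.IsCyc.zero _ _, (map_zero (T.W.cl (pw X n))).symm⟩,
    (emL_zero (W := T.W) (E := E) (X := pw X n)).symm⟩

/-- Task GR. -/
theorem gr : S_GR.{u} := by
  intro k _ 𝒱 ops T X ψ E _ _ Γ _ χ ρ hG φ hF
  obtain ⟨p, hp, hχ, hQ⟩ := hF
  have hpow : ∀ (n m : ℕ) (x : (coh T E ψ).H n), ρ n (φ ^ m) x = (ρ n φ)^[m] x := by
    intro n m
    induction m with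
    | zero =>
      intro x
      rw [pow_zero, hG.one]
      rfl
    | succ m ih =>
      intro x
      rw [pow_succ', hG.comp, ih, Function.iterate_succ_apply']
  have hFr : Raw.IsFrobenius (coh T E ψ) p (fun n => ρ n φ) (coh T E ψ).cyc :=
    { q_pos := hp.pos
      lin := fun n => hG.lin n φ
      mul := fun n x y => hG.mul n φ x y
      deg := fun n i x hx => hG.deg n φ i x hx
      pull := fun n m f hf x => hG.pull n m f hf φ x
      tr := fun x => by
        rw [← hχ]
        exact hG.tr 0 φ x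
      form := fun i x hx y => by
        rw [← hχ]
        exact hG.form φ i x hx y
      conj := fun n j x hx => by
        rw [← hχ]
        exact hG.conj n φ j x hx
      fix := fun n j x hx => by
        obtain ⟨Δ, hΔ, hfix⟩ := hG.fix n j x hx
        obtain ⟨m, hm, -, hmem⟩ := Subgroup.exists_pow_mem_of_index_ne_zero hΔ.index_ne_zero φ
        refine ⟨m, hm, ?_⟩
        have h1 : ρ n (φ ^ m) x = (coh T E ψ).smul n (χ (φ ^ m) ^ j) x := hfix _ hmem
        rw [hpow, map_pow, hχ, ← pow_mul, mul_comm m j] at h1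
        exact h1 }
  have hcyc := cyc_eq T E ψ
  have hFr' : Raw.IsFrobenius (coh T E ψ) p (fun n => ρ n φ) (Raw.ext T E (Scl T X)) := by
    rw [← hcyc]
    exact hFr
  have hdeg : ∀ (n j : ℕ) (x : (coh T E ψ).H n),
      Gen (coh T E ψ) (ρ 0 φ) (Raw.ext T E (Scl T X)) n j x → x ∈ (coh T E ψ).gr n (2 * j) :=
    gd k 𝒱 ops T X ψ E (ρ 0 φ) (Scl T X) (by
      rintro n j _ ⟨z, hz, rfl⟩
      exact T.W.cl_mem hz) (hG.lin 0 φ) (fun i x hx => hG.deg 0 φ i x hx)
  refine ⟨p, hχ, fun i => ?_, hFr, ?_⟩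
  · obtain ⟨Q, h1, -, h2, h3⟩ := hQ i
    refine ⟨Q, h1, h2, fun x hx l hl => ?_⟩
    have h4 := h3 x hx l hl
    simp only [hpow] at h4
    exact h4
  · rw [hcyc]
    exact
    { spec := fun n j x hx => by
        rw [hcyc] at hx
        exact Gen.base hx
      deg := fun n j x hx => hdeg n j x hx
      add := fun n j x hx y hy => Gen.add hx hy
      smul := fun n j x hx r => Gen.smul r hx
      mul := fun n i j x hx y hy => Gen.mul hx hy
      pull := fun n m f hf j x hx => Gen.pull hf hx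
      push := by
        intro n m f hf j x hx y hxy
        by_cases hle : (pw X m).dim ≤ j + (pw X n).dim
        · refine ⟨j + (pw X n).dim - (pw X m).dim, Gen.push hf hx hxy ?_⟩
          change j + (pw X n).dim = j + (pw X n).dim - (pw X m).dim + (pw X m).dim
          omega
        · obtain ⟨g, hg, rfl⟩ := hf
          have h0 : y = (0 : HL T.W E (pw X n)) :=
            push_zero (g := g) (hdeg m j x hx) hxy (by omega)
          refine ⟨0, ?_⟩
          rw [h0]
          exact Gen.base (zero_cyc n 0)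
      frob := fun n j x hx => gen_frob Pool.Agent.N134.HR.f1 hFr' hx
      frob_last := fun n p hp q hq hsp t ht htpq j x hx => Gen.frob hp hq hsp ht htpq hx
      fix := by
        intro n j x hx
        obtain ⟨m, hm, h1⟩ := f2 Pool.Agent.N134.HR.f1 k 𝒱 ops T X ψ E p (fun n => ρ n φ)
          (Scl T X) hFr' n j x hx
        refine ⟨m, hm, ?_⟩
        change ρ n (φ ^ m) x = (coh T E ψ).smul n (χ (φ ^ m) ^ j) x
        rw [hpow, map_pow, hχ, ← pow_mul, mul_comm m j]
        exact h1 }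

end Pool.Agent.N297.HR
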